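import Pool.Agent.H26.RB.Alg2

namespace Pool.Agent.Results.MP_ba7cc7_al.NonzeroWeightAlgebras

open Pool.Agent.H26.RB

/-- For every nonzero weight `lam` and every `m` the Rota-Baxter operators of weight `lam` on
`M_{m+1}(F)` whose kernel is the stabiliser of the line spanned by the first basis vector are, up to
equivalence, the operators `leftOp μ lam` of the associative algebra structures `μ` on `F^m`; they
annihilate the diagonal, and two of them are equivalent exactly when the algebras are isomorphic. -/
theorem result {F : Type*} [Field F] (lam : F) (hlam : lam ≠ 0) (m : ℕ) :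
    (∀ μ : Mult F m, Assoc μ →
        IsRB lam (leftOp μ lam) ∧ KillsDiagonal (leftOp μ lam) ∧ KerIsStab (leftOp μ lam)) ∧
    (∀ R : Oper F m, IsRB lam R → KerIsStab R →
        ∃ μ : Mult F m, Assoc μ ∧ RBEquivalent lam R (leftOp μ lam)) ∧
    (∀ μ μ' : Mult F m, Assoc μ → Assoc μ' →
        (RBEquivalent lam (leftOp μ lam) (leftOp μ' lam) ↔ Isomorphic μ μ')) :=
  algebras' lam hlam m

end Pool.Agent.Results.MP_ba7cc7_al.NonzeroWeightAlgebras
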