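import Pool.Agent.H26.RB.Main

namespace Pool.Agent.Results.MP_ba7cc7_al.WildEveryWeight

open Pool.Agent.H26.RB

/-- For every field `F`, every weight `lam` and every `N ≥ 1` there is an affine map `Φ` from pairs
of `N × N` matrices to Rota-Baxter operators of weight `lam` on `M_{4N+4}(F)` which preserve (even
annihilate) the diagonal, such that `Φ p` and `Φ q` are equivalent exactly when the pairs `p` and
`q` are simultaneously similar. -/
theorem result {F : Type*} [Field F] (lam : F) (N : ℕ) (hN : 0 < N) :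
    ∃ Φ : (Matrix (Fin N) (Fin N) F × Matrix (Fin N) (Fin N) F) →ᵃ[F]
        (Matrix (Fin (4 * N + 4)) (Fin (4 * N + 4)) F →ₗ[F]
          Matrix (Fin (4 * N + 4)) (Fin (4 * N + 4)) F),
      (∀ p, IsRB lam (Φ p) ∧ PreservesDiagonal (Φ p) ∧ ∀ d, Φ p (Matrix.diagonal d) = 0) ∧
      ∀ p q, RBEquivalent lam (Φ p) (Φ q) ↔
        ∃ g : (Matrix (Fin N) (Fin N) F)ˣ,
          q.1 = g.val * p.1 * g⁻¹.val ∧ q.2 = g.val * p.2 * g⁻¹.val :=
  wild lam N hN

end Pool.Agent.Results.MP_ba7cc7_al.WildEveryWeight
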